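import Pool.Agent.K1H35.SH.Stm2

/-!
The contraction (piece CTR of the project SQ, MP_0fd30f_pr).
-/

namespace Pool.Agent.K1H46.SQ

open Finset Pool.Agent.K1H35.SH

theorem mem_nb {n : ℕ} (G : SimpleGraph (Fin n)) (v x : Fin n) : x ∈ nb G v ↔ G.Adj v x := by
  classical
  unfold nb
  rw [mem_filter]
  exact ⟨fun h => h.2, fun h => ⟨mem_univ _, h⟩⟩

theorem card_nb {n d : ℕ} {G : SimpleGraph (Fin n)} (hG : G ∈ reg n d) (v : Fin n) :
    (nb G v).card = d := by
  classical
  unfold reg at hG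
  rw [mem_filter] at hG
  exact hG.2 v

theorem mem_Sd {n : ℕ} (G : SimpleGraph (Fin n)) (f : Fin n → Fin n → Fin n) (v x : Fin n) :
    x ∈ Sd G f v ↔ x ∈ nb G v ∧ f v x ≠ x := by
  classical
  unfold Sd
  rw [mem_filter]

theorem mem_Hv {n : ℕ} (h : ℕ) (G : SimpleGraph (Fin n)) (f : Fin n → Fin n → Fin n)
    (v : Fin n) : v ∈ Hv h G f ↔ h < 2 * (Sd G f v).card := by
  classical
  unfold Hv
  rw [mem_filter]
  exact ⟨fun h => h.2, fun h => ⟨mem_univ _, h⟩⟩

/-- lower bound for the number of edges inside `U` -/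
theorem le_E2 {n : ℕ} (G : SimpleGraph (Fin n)) (X S : Finset (Fin n)) (t : ℕ)
    (hX : ∀ x ∈ X, t ≤ 2 * (nb G x ∩ S).card) :
    X.card * t ≤ 2 * E2 G (X ∪ S) := by
  classical
  have h1 : ∑ x ∈ X, (nb G x ∩ S).card ≤ E2 G (X ∪ S) := by
    rw [← card_sigma]
    unfold E2
    refine card_le_card_of_injOn (fun p => (p.1, p.2)) ?_ ?_
    · intro p hp
      have hp' := mem_sigma.1 (mem_coe.1 hp)
      have h2 := mem_inter.1 hp'.2
      refine mem_coe.2 (mem_filter.2 ⟨mem_univ _, mem_union_left _ hp'.1, mem_union_right _ h2.2,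
        (mem_nb G _ _).1 h2.1⟩)
    · rintro ⟨a, b⟩ _ ⟨a', b'⟩ _ h
      simp only [Prod.mk.injEq] at h
      obtain ⟨rfl, rfl⟩ := h
      rfl
  have h2 : X.card * t ≤ ∑ x ∈ X, 2 * (nb G x ∩ S).card := by
    calc X.card * t = ∑ _x ∈ X, t := by rw [sum_const, smul_eq_mul]
      _ ≤ _ := sum_le_sum hX
  rw [← mul_sum] at h2
  omega

/-- few vertices have many neighbours in a small set -/
theorem few {n h t : ℕ} {G : SimpleGraph (Fin n)} (ht : 1 ≤ t) (hQ : QD h t G)
    (X S : Finset (Fin n)) (hS : 2 * S.card ≤ h) (hX : ∀ x ∈ X, t ≤ 2 * (nb G x ∩ S).card) :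
    4 * X.card ≤ S.card := by
  classical
  obtain ⟨X', hX', hc⟩ := exists_subset_card_eq (s := X) (n := min X.card S.card)
    (min_le_left _ _)
  have hU : (X' ∪ S).card ≤ 2 * S.card := by
    have h1 := card_union_le X' S
    have h2 : X'.card ≤ S.card := by rw [hc]; exact min_le_right _ _
    omega
  have h1 := hQ (X' ∪ S) (hU.trans hS)
  have h2 := le_E2 G X' S t (fun x hx => hX x (hX' hx))
  have h3 : t * (8 * X'.card) ≤ t * (2 * S.card) := by
    have h4 : t * (X' ∪ S).card ≤ t * (2 * S.card) := Nat.mul_le_mul_left _ hU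
    nlinarith
  have h4 : 8 * X'.card ≤ 2 * S.card := Nat.le_of_mul_le_mul_left h3 ht
  rcases le_total X.card S.card with h5 | h5
  · rw [min_eq_left h5] at hc
    omega
  · rw [min_eq_right h5] at hc
    have h6 : S.card = 0 := by omega
    have h7 : S = ∅ := card_eq_zero.1 h6
    have h8 : X = ∅ := by
      rw [eq_empty_iff_forall_notMem]
      intro x hx
      have h9 := hX x hx
      rw [h7, inter_empty, card_empty] at h9
      omega
    rw [h8, card_empty]
    omega

theorem t_CTR : S_CTR := by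
  classical
  intro n d h t G H f ht hG hQT hQD hT
  set Z := Hv h G f with hZ
  set S := Sd G f with hS
  let X : Fin n → Finset (Fin n) := fun y => (nb G y).filter (fun x => t ≤ 2 * (nb G x ∩ S y).card)
  let B : Fin n → Finset (Fin n) := fun w => nb H w \ nb G w
  let T : Fin n → Finset (Fin n) := fun w =>
    (univ \ Z).filter (fun y => ∃ x ∈ S y \ X y, f y x = w)
  have hSn : ∀ y, S y ⊆ nb G y := fun y x hx => ((mem_Sd G f y x).1 hx).1
  have hSd : ∀ y, (S y).card ≤ d := fun y => by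
    rw [← card_nb hG y]; exact card_le_card (hSn y)
  have hH : ∀ w, (nb H w).card = d := by
    intro w
    have h1 : (nb G w).image (f w) = nb H w := by
      have := (hT w).2.1
      rw [← coe_image] at this
      exact coe_injective this
    rw [← h1, card_image_of_injOn (hT w).1, card_nb hG]
  have hB : ∀ w, (B w).card ≤ (S w).card := by
    intro w
    have h1 : B w ⊆ (S w).image (f w) := by
      intro w' hw'
      have h2 := mem_sdiff.1 hw'
      have h3 : w' ∈ f w '' (nb G w : Set (Fin n)) := by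
        rw [(hT w).2.1]; exact mem_coe.2 h2.1
      obtain ⟨x, hx, rfl⟩ := h3
      refine mem_image.2 ⟨x, (mem_Sd G f w x).2 ⟨mem_coe.1 hx, ?_⟩, rfl⟩
      intro h4
      apply h2.2
      rw [h4]
      exact mem_coe.1 hx
    exact (card_le_card h1).trans card_image_le
  have hnZ : ∀ y, y ∉ Z → 2 * (S y).card ≤ h := by
    intro y hy
    rw [hZ, mem_Hv, ← hS] at hy
    omega
  have hX : ∀ y, y ∉ Z → 4 * (X y).card ≤ (S y).card := by
    intro y hy
    exact few ht hQD (X y) (S y) (hnZ y hy) (fun x hx => (mem_filter.1 hx).2)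
  have key : ∀ w, ∀ y ∈ T w, t ≤ 2 * (nb G y ∩ B w).card ∧ y ∈ nb H w := by
    intro w y hy
    obtain ⟨hy1, x, hx, rfl⟩ := mem_filter.1 hy
    obtain ⟨hxS, hxX⟩ := mem_sdiff.1 hx
    have hxS' := (mem_Sd G f y x).1 hxS
    have hadj : G.Adj y x := (mem_nb G y x).1 hxS'.1
    have hwH : f y x ∈ nb H y := by
      rw [← mem_coe, ← (hT y).2.1]
      exact ⟨x, mem_coe.2 hxS'.1, rfl⟩
    have hwH' : H.Adj y (f y x) := (mem_nb H y _).1 hwH
    have hTS := hQT x y (f y x) hadj.ne' (Ne.symm hxS'.2) hwH'.ne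
    have hsm : 2 * (nb G x ∩ S y).card < t := by
      by_contra hcon
      exact hxX (mem_filter.2 ⟨hxS'.1, not_lt.1 hcon⟩)
    have hsub : TS G x y (f y x) ⊆ (nb G y ∩ B (f y x)) ∪ (nb G x ∩ S y) := by
      intro u hu
      unfold TS at hu
      obtain ⟨hu1, hu2⟩ := mem_sdiff.1 hu
      obtain ⟨hu3, hu4⟩ := mem_inter.1 hu1
      by_cases huS : u ∈ S y
      · exact mem_union_right _ (mem_inter.2 ⟨hu3, huS⟩)
      · refine mem_union_left _ (mem_inter.2 ⟨hu4, mem_sdiff.2 ⟨?_, hu2⟩⟩)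
        have hfu : f y u = u := by
          by_contra hne
          exact huS ((mem_Sd G f y u).2 ⟨hu4, hne⟩)
        have h5 := ((hT y).2.2 x hxS'.1 u hu4).1 ((mem_nb G x u).1 hu3)
        rw [hfu] at h5
        exact (mem_nb H _ _).2 h5
    have h6 := (card_le_card hsub).trans (card_union_le _ _)
    refine ⟨by omega, (mem_nb H _ _).2 hwH'.symm⟩
  have hTn : ∀ w, w ∉ Z → 4 * (T w).card ≤ (S w).card := by
    intro w hw
    have h1 := hnZ w hw
    have h2 := hB w
    have h3 := few ht hQD (T w) (B w) (by omega) (fun y hy => (key w y hy).1)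
    omega
  have hTz : ∀ w, (T w).card ≤ d := by
    intro w
    rw [← hH w]
    exact card_le_card (fun y hy => (key w y hy).2)
  -- double counting
  have hdc : ∑ y ∈ univ \ Z, (S y \ X y).card = ∑ w, (T w).card := by
    have h1 : ∀ y, (S y \ X y).card = ((S y \ X y).image (f y)).card := by
      intro y
      rw [card_image_of_injOn]
      intro a ha b hb hab
      exact (hT y).1 (mem_coe.2 (hSn y (mem_sdiff.1 (mem_coe.1 ha)).1))
        (mem_coe.2 (hSn y (mem_sdiff.1 (mem_coe.1 hb)).1)) hab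
    have h2 : ∑ y ∈ univ \ Z, (S y \ X y).card =
        ∑ y ∈ univ \ Z, ∑ w : Fin n, if w ∈ (S y \ X y).image (f y) then 1 else 0 := by
      refine sum_congr rfl (fun y _ => ?_)
      rw [h1 y, sum_ite_mem, univ_inter, card_eq_sum_ones]
    rw [h2, sum_comm]
    refine sum_congr rfl (fun w _ => ?_)
    rw [← sum_filter, ← card_eq_sum_ones]
    congr 1
    ext y
    simp only [T, mem_filter, mem_image]
  have hsplit : ∀ y, (S y).card ≤ (X y).card + (S y \ X y).card := by
    intro y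
    have h1 : S y ⊆ X y ∪ (S y \ X y) := by
      intro x hx
      by_cases hx' : x ∈ X y
      · exact mem_union_left _ hx'
      · exact mem_union_right _ (mem_sdiff.2 ⟨hx, hx'⟩)
    exact (card_le_card h1).trans (card_union_le _ _)
  have e1 : ∑ y ∈ univ \ Z, (S y).card ≤
      ∑ y ∈ univ \ Z, (X y).card + ∑ y ∈ univ \ Z, (S y \ X y).card := by
    rw [← sum_add_distrib]
    exact sum_le_sum (fun y _ => hsplit y)
  have e2 : 4 * ∑ y ∈ univ \ Z, (X y).card ≤ ∑ y ∈ univ \ Z, (S y).card := by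
    rw [mul_sum]
    exact sum_le_sum (fun y hy => hX y (mem_sdiff.1 hy).2)
  have e3 : 4 * ∑ w ∈ univ \ Z, (T w).card ≤ ∑ w ∈ univ \ Z, (S w).card := by
    rw [mul_sum]
    exact sum_le_sum (fun y hy => hTn y (mem_sdiff.1 hy).2)
  have e4 : ∑ w ∈ Z, (T w).card ≤ Z.card * d := by
    calc ∑ w ∈ Z, (T w).card ≤ ∑ _w ∈ Z, d := sum_le_sum (fun w _ => hTz w)
      _ = Z.card * d := by rw [sum_const, smul_eq_mul]
  have e5 : ∑ w ∈ Z, (S w).card ≤ Z.card * d := by
    calc ∑ w ∈ Z, (S w).card ≤ ∑ _w ∈ Z, d := sum_le_sum (fun w _ => hSd w)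
      _ = Z.card * d := by rw [sum_const, smul_eq_mul]
  have e6 : ∑ w ∈ univ \ Z, (T w).card + ∑ w ∈ Z, (T w).card = ∑ w, (T w).card :=
    sum_sdiff (subset_univ Z)
  have e7 : ∑ w ∈ univ \ Z, (S w).card + ∑ w ∈ Z, (S w).card = ∑ w, (S w).card :=
    sum_sdiff (subset_univ Z)
  rw [hdc] at e1
  have e8 : 3 * d * Z.card = 3 * (Z.card * d) := by ring
  rw [e8]
  omega

end Pool.Agent.K1H46.SQ
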